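import Mathlib
import Pool.Agent.V11180.BohrPart

/-!
# MP_c4e285_co: Bohr sets in `B + c + A_i` for a single element `c`

The answer is negative, even with `C = G` and with partitions into two classes: for the direct sum
`G` of countably many groups of order two there are a set `B` of positive upper Banach density and
a partition `G = A_0 ∪ A_1` such that neither `B + A_0` nor `B + A_1` contains a translate of a
Bohr set.
-/

set_option autoImplicit false

open Filter Topology Finset
open scoped Pointwise symmDiff ENNReal

namespace Pool.Agent.Results.MP_c4e285_co.NoTranslate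

open Classical in
/-- A Folner sequence: nonempty finite sets `F n` with `|(g + F n) ∆ F n| / |F n| → 0` for all
`g`. -/
def IsFolner {G : Type} [AddCommGroup G] (F : ℕ → Finset G) : Prop :=
  (∀ n, (F n).Nonempty) ∧ ∀ g : G,
    Tendsto (fun n => ((((F n).image (fun x => g + x)) ∆ F n).card : ℝ) / (F n).card) atTop (𝓝 0)

open Classical in
/-- The upper Banach density: the supremum over all Folner sequences `F` of
`limsup |A ∩ F n| / |F n|`. -/
noncomputable def upperBanachDensity {G : Type} [AddCommGroup G] (A : Set G) : ℝ≥0∞ :=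
  ⨆ (F : ℕ → Finset G) (_ : IsFolner F),
    limsup (fun n => (((F n).filter (fun x => x ∈ A)).card : ℝ≥0∞) / (F n).card) atTop

/-- The Bohr set `{g : |χ_j(g) - 1| < η for all j}`. -/
def bohrSet {G : Type} [AddCommGroup G] {k : ℕ} (χ : Fin k → AddChar G Circle) (η : ℝ) : Set G :=
  {g | ∀ j, ‖((χ j g : Circle) : ℂ) - 1‖ < η}

/-- `S` contains a Bohr set. -/
def ContainsBohrSet {G : Type} [AddCommGroup G] (S : Set G) : Prop :=
  ∃ (k : ℕ) (χ : Fin k → AddChar G Circle) (η : ℝ), 0 < η ∧ bohrSet χ η ⊆ S

open Pool.Agent.V11180.BohrPart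

/-- the direct sum of countably many groups of order two -/
abbrev V := ℕ →₀ ZMod 2

/-- the element with a given support -/
noncomputable def e (x : Finset ℕ) : V := ∑ j ∈ x, Finsupp.single j 1

lemma e_apply (x : Finset ℕ) (j : ℕ) : e x j = if j ∈ x then 1 else 0 := by
  rw [e, Finsupp.finsetSum_apply]
  simp only [Finsupp.single_apply]
  rw [sum_ite_eq' x j]

lemma zmod_cases (a : ZMod 2) : a = 0 ∨ a = 1 := by
  revert a
  decide

lemma e_support (x : Finset ℕ) : (e x).support = x := by
  ext j
  rw [Finsupp.mem_support_iff, e_apply]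
  split_ifs with h
  · simp [h]
  · simp [h]

lemma e_of_support (g : V) : e g.support = g := by
  ext j
  rw [e_apply]
  split_ifs with h
  · rcases zmod_cases (g j) with h1 | h1
    · exact absurd h1 (Finsupp.mem_support_iff.1 h)
    · rw [h1]
  · rw [Finsupp.notMem_support_iff.1 h]

lemma e_inj {x y : Finset ℕ} (h : e x = e y) : x = y := by
  rw [← e_support x, ← e_support y, h]

lemma e_add (x y : Finset ℕ) : e (x ∆ y) = e x + e y := by
  ext j
  rw [Finsupp.add_apply, e_apply, e_apply, e_apply]
  by_cases h1 : j ∈ x <;> by_cases h2 : j ∈ y <;> simp [mem_symmDiff, h1, h2]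
  decide

lemma add_support (g h : V) : (g + h).support = g.support ∆ h.support := by
  rw [← e_support (g.support ∆ h.support), e_add, e_of_support, e_of_support]

lemma self_add (g : V) : g + g = 0 := by
  ext j
  rw [Finsupp.add_apply, Finsupp.zero_apply]
  rcases zmod_cases (g j) with h | h <;> rw [h] <;> decide

lemma sub_eq_add' (g h : V) : g - h = g + h := by
  rw [sub_eq_iff_eq_add, add_assoc, self_add, add_zero]

/-- the set `B` -/
def B : Set V := {g | ∃ m, g.support ∈ BB m}

/-- the Bohr dense set `Z` -/
def Z : Set V := {g | ∃ m, g.support ∈ ZZ m}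

/-- the difference -/
noncomputable def δ : V := Finsupp.single 0 1

lemma δ_support : δ.support = {0} := by
  rw [δ, Finsupp.support_single]
  decide

lemma key1 {b b' z z' : V} (hb : b ∈ B) (hb' : b' ∈ B) (hz : z ∈ Z) (hz' : z' ∈ Z) :
    b + (z + z') + δ ≠ b' := by
  intro h
  obtain ⟨m1, h1⟩ := hb
  obtain ⟨m2, h2⟩ := hb'
  obtain ⟨m3, h3⟩ := hz
  obtain ⟨m4, h4⟩ := hz'
  set k := m1 + m2 + m3 + m4 + 1 with hk
  have h5 := P_all h3 h4 (k := k) (by omega) (by omega)
  have h6 : b.support ∈ BB k := BB_mono (by omega) h1
  have h7 : b'.support ∈ BB k := BB_mono (by omega) h2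
  apply h5 _ h6
  rw [← h, add_support, add_support, add_support, δ_support] at h7
  exact h7

/-! ### Characters -/

lemma char_sq (χ : AddChar V Circle) (g : V) : χ g * χ g = 1 := by
  rw [← AddChar.map_add_eq_mul, self_add, AddChar.map_zero_eq_one]

lemma char_cases (χ : AddChar V Circle) (g : V) : χ g = 1 ∨ ((χ g : Circle) : ℂ) = -1 := by
  have h1 : ((χ g : Circle) : ℂ) * ((χ g : Circle) : ℂ) = 1 := by
    rw [← Circle.coe_mul, char_sq, Circle.coe_one]
  rcases mul_self_eq_one_iff.1 h1 with h | h
  · left
    apply Circle.ext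
    rw [h, Circle.coe_one]
  · exact Or.inr h

lemma char_eq_of_iff (χ : AddChar V Circle) {g h : V} (hh : χ g = 1 ↔ χ h = 1) : χ g = χ h := by
  rcases char_cases χ g with h1 | h1
  · rw [h1, hh.1 h1]
  · rcases char_cases χ h with h2 | h2
    · rw [h2, hh.2 h2]
    · apply Circle.ext
      rw [h1, h2]

lemma small_rep {k : ℕ} (χ : Fin k → AddChar V Circle) (T : Finset ℕ) :
    ∃ u ⊆ T, u.card ≤ k ∧ ∀ j, χ j (e u) = χ j (e T) := by
  classical
  obtain ⟨u, hu, hmin⟩ := exists_min_image
    (T.powerset.filter (fun u => ∀ j, χ j (e u) = χ j (e T))) Finset.card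
    ⟨T, by rw [mem_filter, mem_powerset]; exact ⟨Subset.refl _, fun _ => rfl⟩⟩
  rw [mem_filter, mem_powerset] at hu
  refine ⟨u, hu.1, ?_, hu.2⟩
  by_contra hcon
  push Not at hcon
  have hcard : (univ : Finset (Fin k → Bool)).card < u.powerset.card := by
    rw [card_powerset, card_univ, Fintype.card_fun, Fintype.card_bool, Fintype.card_fin]
    exact Nat.pow_lt_pow_right (by norm_num) hcon
  obtain ⟨a, ha, b, hb, hne, hab⟩ := exists_ne_map_eq_of_card_lt_of_maps_to hcard
    (f := fun a => fun j => decide (χ j (e a) = 1)) (fun a _ => mem_coe.2 (mem_univ _))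
  rw [mem_powerset] at ha hb
  have hw : ∀ j, χ j (e (a ∆ b)) = 1 := by
    intro j
    have h1 := congrFun hab j
    simp only [decide_eq_decide] at h1
    rw [e_add, AddChar.map_add_eq_mul, char_eq_of_iff (χ j) h1, char_sq]
  have hwu : a ∆ b ⊆ u := by
    intro j hj
    rw [mem_symmDiff] at hj
    rcases hj with h | h
    · exact ha h.1
    · exact hb h.1
  have hwne : (a ∆ b).Nonempty := by
    rw [nonempty_iff_ne_empty]
    intro h
    exact hne (symmDiff_eq_bot.1 h)
  have h2 : u ∆ (a ∆ b) = u \ (a ∆ b) := by
    ext j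
    rw [Finset.mem_symmDiff, Finset.mem_sdiff]
    constructor
    · rintro (h | h)
      · exact h
      · exact absurd (hwu h.1) h.2
    · intro h
      exact Or.inl h
  have h3 : u \ (a ∆ b) ∈ T.powerset.filter (fun u => ∀ j, χ j (e u) = χ j (e T)) := by
    rw [mem_filter, mem_powerset]
    refine ⟨sdiff_subset.trans hu.1, ?_⟩
    intro j
    rw [← h2, e_add, AddChar.map_add_eq_mul, hw, mul_one, hu.2]
  have h4 := hmin _ h3
  have h5 := card_sdiff_of_subset hwu
  have h6 := card_pos.2 hwne
  have h7 := card_le_card hwu
  omega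

/-- every coset of the common kernel of finitely many characters meets `Z` -/
lemma key2 {k : ℕ} (χ : Fin k → AddChar V Circle) (t : V) : ∃ z ∈ Z, ∀ j, χ j z = χ j t := by
  classical
  set T := t.support with hT
  set m := k + T.sup id + 1 with hm
  set n := nn m (LL m) with hn
  have hn3 : 3 * (m + 1) ≤ n := (nn_spec m (LL m)).1
  have hTL : T ⊆ range (LL m) := by
    intro j hj
    rw [mem_range]
    have h1 : id j ≤ T.sup id := le_sup hj
    have h2 := lt_LL m
    simp only [id] at h1
    omega
  have hex := fun b => small_rep χ (J (LL m) n b)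
  choose u hu1 hu2 hu3 using hex
  set v : ℕ → Finset ℕ := fun b => J (LL m) n b \ u b with hv
  have hvJ : ∀ b, v b ⊆ J (LL m) n b := fun b => sdiff_subset
  have hvcard : ∀ b, 2 * n ≤ (v b).card + k := by
    intro b
    have h1 := card_sdiff_of_subset (hu1 b)
    rw [J_card (LL_pos m)] at h1
    have h2 := hu2 b
    simp only [hv]
    omega
  have hvchar : ∀ b j, χ j (e (v b)) = 1 := by
    intro b j
    have h1 : v b = J (LL m) n b ∆ u b := by
      ext i
      simp only [hv]
      rw [Finset.mem_symmDiff, Finset.mem_sdiff]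
      constructor
      · intro h
        exact Or.inl h
      · rintro (h | h)
        · exact h
        · exact absurd (hu1 b h.1) h.2
    rw [h1, e_add, AddChar.map_add_eq_mul, hu3, char_sq]
  set z : Finset ℕ := T ∪ T.biUnion v with hz
  have hvT : Disjoint T (T.biUnion v) := by
    rw [disjoint_left]
    intro j hj hj'
    rw [mem_biUnion] at hj'
    obtain ⟨b, -, hb⟩ := hj'
    have h1 := J_ge (hvJ b hb)
    have h2 := mem_range.1 (hTL hj)
    omega
  have hzJ1 : ∀ b ∈ T, z ∩ J (LL m) n b = v b := by
    intro b hb
    ext j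
    rw [mem_inter, hz, mem_union, mem_biUnion]
    constructor
    · rintro ⟨h | ⟨b', hb', h⟩, h'⟩
      · have h1 := J_ge h'
        have h2 := mem_range.1 (hTL h)
        omega
      · have h1 := J_disj (mem_range.1 (hTL hb')) (mem_range.1 (hTL hb)) (hvJ b' h) h'
        rw [← h1]
        exact h
    · intro h
      exact ⟨Or.inr ⟨b, hb, h⟩, hvJ b h⟩
  have hzJ2 : ∀ b < LL m, b ∉ T → z ∩ J (LL m) n b = ∅ := by
    intro b hbL hb
    rw [eq_empty_iff_forall_notMem]
    intro j hj
    rw [mem_inter, hz, mem_union, mem_biUnion] at hj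
    obtain ⟨h | ⟨b', hb', h⟩, h'⟩ := hj
    · have h1 := J_ge h'
      have h2 := mem_range.1 (hTL h)
      omega
    · have h1 := J_disj (mem_range.1 (hTL hb')) hbL (hvJ b' h) h'
      rw [h1] at hb'
      exact hb hb'
  have hzZ : z ∈ ZZ m := by
    refine ⟨?_, ?_, ?_⟩
    · intro j hj
      rw [hz, mem_union, mem_biUnion] at hj
      rw [mem_range]
      rcases hj with h | ⟨b, hb, h⟩
      · have h1 := mem_range.1 (hTL h)
        have h2 := LL_lt m
        omega
      · exact J_lt (mem_range.1 (hTL hb)) (hvJ b h)
    · intro b hb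
      rw [← hn]
      by_cases hbT : b ∈ T
      · right
        rw [hzJ1 b hbT]
        have := hvcard b
        omega
      · left
        rw [hzJ2 b hb hbT, card_empty]
        omega
    · have h1 : M (LL m) n (m + 1) z = T := by
        ext b
        rw [M, mem_filter, mem_range]
        constructor
        · rintro ⟨hb, h⟩
          by_contra hbT
          rw [hzJ2 b hb hbT, card_empty] at h
          omega
        · intro hbT
          refine ⟨mem_range.1 (hTL hbT), ?_⟩
          rw [hzJ1 b hbT]
          have := hvcard b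
          omega
      have h2 : z ∩ range (LL m) = T := by
        ext j
        rw [mem_inter, hz, mem_union, mem_biUnion, mem_range]
        constructor
        · rintro ⟨h | ⟨b, hb, h⟩, h'⟩
          · exact h
          · have h1 := J_ge (hvJ b h)
            omega
        · intro h
          exact ⟨Or.inl h, mem_range.1 (hTL h)⟩
      rw [← hn, Psi, h1, h2, symmDiff_self]
      rfl
  refine ⟨e z, ⟨m, by rw [e_support]; exact hzZ⟩, ?_⟩
  intro j
  have h1 : e z = t + ∑ b ∈ T, e (v b) := by
    rw [e, hz, sum_union hvT, sum_biUnion]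
    · congr 1
      exact e_of_support t
    · intro b hb b' hb' hne
      rw [Function.onFun, disjoint_left]
      intro i hi hi'
      exact hne (J_disj (mem_range.1 (hTL hb)) (mem_range.1 (hTL hb')) (hvJ b hi) (hvJ b' hi'))
  have h2 : ∀ S : Finset ℕ, χ j (∑ b ∈ S, e (v b)) = 1 := by
    intro S
    induction S using Finset.induction_on with
    | empty => rw [sum_empty, AddChar.map_zero_eq_one]
    | insert b S hb ih =>
      rw [sum_insert hb, AddChar.map_add_eq_mul, ih, hvchar, mul_one]
  rw [h1, AddChar.map_add_eq_mul, h2, mul_one]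

/-! ### Density -/

/-- the Folner sequence of the subgroups of elements supported in an initial segment -/
noncomputable def F (n : ℕ) : Finset V := ((range (LL n)).powerset).map ⟨e, fun _ _ h => e_inj h⟩

lemma mem_F {n : ℕ} {g : V} : g ∈ F n ↔ g.support ⊆ range (LL n) := by
  rw [F, Finset.mem_map]
  constructor
  · rintro ⟨x, hx, rfl⟩
    rw [mem_powerset] at hx
    change (e x).support ⊆ _
    rw [e_support]
    exact hx
  · intro h
    exact ⟨g.support, mem_powerset.2 h, e_of_support g⟩

lemma F_card (n : ℕ) : (F n).card = 2 ^ LL n := by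
  rw [F, card_map, card_powerset, card_range]

lemma sd_self_card {α : Type} [DecidableEq α] (s : Finset α) : (s ∆ s).card = 0 := by
  simp

lemma F_folner : IsFolner F := by
  classical
  refine ⟨fun n => ⟨0, by rw [mem_F]; simp⟩, ?_⟩
  intro g
  apply tendsto_const_nhds.congr'
  rw [EventuallyEq, eventually_atTop]
  refine ⟨g.support.sup id + 1, ?_⟩
  intro n hn
  have hg : g.support ⊆ range (LL n) := by
    intro j hj
    rw [mem_range]
    have h1 : id j ≤ g.support.sup id := le_sup hj
    have h2 := lt_LL n
    simp only [id] at h1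
    omega
  have himg : ∀ inst : DecidableEq V, @Finset.image V V inst (fun x => g + x) (F n) = F n := by
    intro inst
    have hadd : ∀ x ∈ F n, g + x ∈ F n := by
      intro x hx
      rw [mem_F] at hx ⊢
      rw [add_support]
      intro j hj
      rw [mem_symmDiff] at hj
      rcases hj with h | h
      · exact hg h.1
      · exact hx h.1
    ext y
    rw [Finset.mem_image]
    constructor
    · rintro ⟨x, hx, rfl⟩
      exact hadd x hx
    · intro hy
      refine ⟨g + y, hadd y hy, ?_⟩
      rw [← add_assoc, self_add, zero_add]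
  rw [himg, @sd_self_card V (fun a b => Classical.propDecidable (a = b)) (F n)]
  simp

lemma B_density : 0 < upperBanachDensity B := by
  classical
  have h1 : (4⁻¹ : ℝ≥0∞) ≤ limsup (fun n => (((F n).filter (fun x => x ∈ B)).card : ℝ≥0∞) /
      (F n).card) atTop := by
    rw [← limsup_const (f := (atTop : Filter ℕ)) (4⁻¹ : ℝ≥0∞)]
    apply limsup_le_limsup
    · apply Eventually.of_forall
      intro n
      have h2 : (BB n).card ≤ ((F n).filter (fun x => x ∈ B)).card := by
        apply card_le_card_of_injOn e
        · intro x hx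
          rw [mem_coe] at hx
          rw [mem_coe, mem_filter, mem_F, e_support]
          refine ⟨mem_powerset.1 (BB_subset n hx), n, ?_⟩
          rw [e_support]
          exact hx
        · intro x _ y _ h
          exact e_inj h
      have h3 : 2 ^ LL n ≤ 4 * (BB n).card := by
        have h4 := BB_density n
        rw [le_div_iff₀ (by positivity)] at h4
        have h5 : (0 : ℝ) ≤ 1 / 2 ^ (n + 2) * 2 ^ LL n := by positivity
        have h6 : ((2 ^ LL n : ℕ) : ℝ) ≤ ((4 * (BB n).card : ℕ) : ℝ) := by
          push_cast
          nlinarith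
        exact_mod_cast h6
      have h4 : (F n).card ≤ 4 * ((F n).filter (fun x => x ∈ B)).card := by
        rw [F_card]
        omega
      have h5 : ((F n).card : ℝ≥0∞) ≤ 4 * (((F n).filter (fun x => x ∈ B)).card : ℝ≥0∞) := by
        exact_mod_cast h4
      have h6 : ((F n).card : ℝ≥0∞) ≠ 0 := by
        rw [F_card]
        simp
      have h7 : ((F n).card : ℝ≥0∞) ≠ ⊤ := ENNReal.natCast_ne_top _
      simp only
      rw [ENNReal.le_div_iff_mul_le (Or.inl h6) (Or.inl h7),
        ENNReal.inv_mul_le_iff (by norm_num) (by norm_num)]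
      exact h5
    · isBoundedDefault
    · isBoundedDefault
  refine lt_of_lt_of_le ?_ (le_iSup₂_of_le F F_folner h1)
  norm_num

lemma density_mono {G : Type} [AddCommGroup G] {A A' : Set G} (h : A ⊆ A') :
    upperBanachDensity A ≤ upperBanachDensity A' := by
  classical
  apply iSup₂_mono
  intro F _
  apply limsup_le_limsup
  · apply Eventually.of_forall
    intro n
    apply ENNReal.div_le_div_right
    have : ((F n).filter (fun x => x ∈ A)).card ≤ ((F n).filter (fun x => x ∈ A')).card := by
      apply card_le_card
      intro x hx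
      rw [mem_filter] at hx ⊢
      exact ⟨hx.1, h hx.2⟩
    exact_mod_cast this
  · isBoundedDefault
  · isBoundedDefault

/-- The negated form of the question, with `C = G` and two classes: there are a countable abelian
group `G`, a set `B` of positive upper Banach density and a partition `G = A 0 ∪ A 1` such that for
every `c ∈ C = G` neither `B + c + A 0` nor `B + c + A 1` contains a Bohr set. -/
theorem result : ∃ (G : Type) (_ : AddCommGroup G) (_ : Countable G) (B C : Set G)
    (A : Fin 2 → Set G), 0 < upperBanachDensity B ∧ 0 < upperBanachDensity C ∧ C = Set.univ ∧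
      (∀ g : G, ∃! i, g ∈ A i) ∧ ∀ c ∈ C, ∀ i, ¬ ContainsBohrSet (B + {c} + A i) := by
  refine ⟨V, inferInstance, inferInstance, B, Set.univ, ![Z + B, (Z + B)ᶜ], B_density,
    lt_of_lt_of_le B_density (density_mono (Set.subset_univ _)), rfl, ?_, ?_⟩
  · intro g
    by_cases hg : g ∈ Z + B
    · refine ⟨0, hg, ?_⟩
      intro i hi
      fin_cases i
      · rfl
      · exact absurd hg hi
    · refine ⟨1, hg, ?_⟩
      intro i hi
      fin_cases i
      · exact absurd hi hg
      · rfl
  · rintro c - i ⟨k, χ, η, hη, hsub⟩
    have hmem : ∀ g : V, (∀ j, χ j g = 1) → g ∈ bohrSet χ η := by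
      intro g hg j
      rw [hg j, Circle.coe_one, sub_self, norm_zero]
      exact hη
    fin_cases i
    · -- the class `Z + B`
      obtain ⟨z, hz, hzχ⟩ := key2 χ (c + δ)
      have h1 : z + (c + δ) ∈ B + {c} + (Z + B) := by
        apply hsub
        apply hmem
        intro j
        rw [AddChar.map_add_eq_mul, hzχ, char_sq]
      rw [Set.mem_add] at h1
      obtain ⟨x, hx, a, ha, hxa⟩ := h1
      rw [Set.mem_add] at hx ha
      obtain ⟨b, hb, c', hc', rfl⟩ := hx
      obtain ⟨z', hz', b', hb', rfl⟩ := ha
      rw [Set.mem_singleton_iff] at hc'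
      subst hc'
      apply key1 hb hb' hz hz'
      have h2 : b + (z + z') + δ = b' + ((b + c' + (z' + b')) + (z + (c' + δ))) := by
        have e1 : b' + ((b + c' + (z' + b')) + (z + (c' + δ))) =
            (b' + b') + (c' + c') + (b + (z + z') + δ) := by abel
        rw [e1, self_add, self_add, zero_add, zero_add]
      rw [h2, hxa, self_add, add_zero]
    · -- the complement
      obtain ⟨z, hz, hzχ⟩ := key2 χ c
      have h1 : z + c ∈ B + {c} + (Z + B)ᶜ := by
        apply hsub
        apply hmem
        intro j
        rw [AddChar.map_add_eq_mul, hzχ, char_sq]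
      rw [Set.mem_add] at h1
      obtain ⟨x, hx, a, ha, hxa⟩ := h1
      rw [Set.mem_add] at hx
      obtain ⟨b, hb, c', hc', rfl⟩ := hx
      rw [Set.mem_singleton_iff] at hc'
      subst hc'
      apply ha
      rw [Set.mem_add]
      refine ⟨z, hz, b, hb, ?_⟩
      have h2 : z = b + a := by
        have e1 : z = (z + c') + c' := by rw [add_assoc, self_add, add_zero]
        have e2 : (b + c' + a) + c' = (c' + c') + (b + a) := by abel
        rw [e1, ← hxa, e2, self_add, zero_add]
      have e3 : b + a + b = (b + b) + a := by abel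
      rw [h2, e3, self_add, zero_add]

end Pool.Agent.Results.MP_c4e285_co.NoTranslate
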